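import Pool.Agent.H99.HM2

set_option autoImplicit false

open Filter Topology Set MeasureTheory Metric
open scoped ENNReal ContDiff

namespace Pool.Agent.Results.MP_f42450_an.SlitBound

/-- `u` is the continuous representative of an element of `D^{1,p}_0(Ω)`, with weak gradient `g` -/
def Adm {n : ℕ} (p : ℝ) (Ω : Set (EuclideanSpace ℝ (Fin n))) (u : EuclideanSpace ℝ (Fin n) → ℝ)
    (g : EuclideanSpace ℝ (Fin n) → EuclideanSpace ℝ (Fin n)) : Prop :=
  Continuous u ∧ MemLp g (ENNReal.ofReal p) ∧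
    (∀ φ : EuclideanSpace ℝ (Fin n) → ℝ, ContDiff ℝ ∞ φ → HasCompactSupport φ → ∀ i,
      ∫ x, u x * fderiv ℝ φ x (EuclideanSpace.single i 1) = -∫ x, g x i * φ x) ∧
    ∀ x ∉ Ω, u x = 0

/-- the Hardy-Morrey constant `λ_p(Ω)` -/
noncomputable def lam {n : ℕ} (p : ℝ) (Ω : Set (EuclideanSpace ℝ (Fin n))) : ℝ≥0∞ :=
  ⨅ (u) (g) (_ : Adm p Ω u g) (_ : u ≠ 0), (∫⁻ x, ‖g x‖ₑ ^ p) /
    (⨆ x ∈ Ω, ENNReal.ofReal (|u x| / infDist x Ωᶜ ^ (1 - n / p))) ^ p

/-- the open cone of half-opening angle `φ` about the last basis vector of `ℝ^(m+1)` -/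
def cone (m : ℕ) (φ : ℝ) : Set (EuclideanSpace ℝ (Fin (m + 1))) :=
  {x | ‖x‖ * Real.cos φ < x (Fin.last m)}

open Pool.Agent.H99.HM in
theorem result (m : ℕ) (p : ℝ) (hp : (m + 1 : ℕ) < p) (Ω : Set (EuclideanSpace ℝ (Fin (m + 1))))
    (ho : IsOpen Ω) (hb : Bornology.IsBounded Ω)
    (hs : Nonempty (frontier Ω ≃ₜ sphere (0 : EuclideanSpace ℝ (Fin (m + 1))) 1)) :
    lam p (cone m Real.pi) ≤ lam p Ω := by
  obtain ⟨h⟩ := hs
  have p1 : 1 ≤ p := le_trans (by simp) hp.le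
  have p0 : 0 < p := by linarith
  have θ0 : 0 ≤ 1 - ((m + 1 : ℕ) : ℝ) / p := by rw [sub_nonneg, div_le_one p0]; exact hp.le
  set e : EuclideanSpace ℝ (Fin (m + 1)) := EuclideanSpace.single (Fin.last m) 1
  have he : ‖e‖ = 1 := by simp [e]
  have hn : Ωᶜ.Nonempty := nonempty_compl.2 fun k => NormedSpace.unbounded_univ ℝ _ (k ▸ hb)
  have H : IsPreconnected (frontier Ω) ∨ ∀ a ∈ frontier Ω, ∀ b ∈ frontier Ω, ∀ c ∈ frontier Ω,
      a = b ∨ a = c ∨ b = c := by
    cases m with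
    | zero =>
      have k : ∀ a : frontier Ω, (h a).1 0 = 1 ∨ (h a).1 0 = -1 := fun a => by
        have := (h a).2
        rw [mem_sphere_zero_iff_norm, EuclideanSpace.norm_eq, Real.sqrt_eq_one] at this
        simpa using this
      have j : ∀ a b : frontier Ω, (h a).1 0 = (h b).1 0 → a.1 = b.1 := fun a b k => by
        congr 1
        refine h.injective (Subtype.ext ?_)
        ext i; rwa [Fin.fin_one_eq_zero i]
      refine Or.inr fun a ha b hb c hc => ?_
      rcases k ⟨a, ha⟩ with k1 | k1 <;> rcases k ⟨b, hb⟩ with k2 | k2 <;>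
        rcases k ⟨c, hc⟩ with k3 | k3 <;>
        first
        | exact .inl (j ⟨a, ha⟩ ⟨b, hb⟩ (k1.trans k2.symm))
        | exact .inr (.inl (j ⟨a, ha⟩ ⟨c, hc⟩ (k1.trans k3.symm)))
        | exact .inr (.inr (j ⟨b, hb⟩ ⟨c, hc⟩ (k2.trans k3.symm)))
    | succ m =>
      have := Subtype.preconnectedSpace (isPreconnected_sphere (E := EuclideanSpace ℝ (Fin (m + 2)))
        (by rw [← Module.finrank_eq_rank, finrank_euclideanSpace_fin]; norm_cast; omega) 0 1)
      exact Or.inl (isPreconnected_iff_preconnectedSpace.2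
        (h.symm.surjective.denseRange.preconnectedSpace h.symm.continuous))
  have hC : ∀ x ∉ cone m Real.pi, x = -(‖x‖ • e) := fun x hx => by
    simp only [cone, mem_ofPred_eq, Real.cos_pi, not_lt] at hx
    rw [eq_neg_iff_add_eq_zero, ← norm_eq_zero, ← pow_eq_zero_iff two_ne_zero]
    refine le_antisymm ?_ (sq_nonneg _)
    rw [norm_add_sq_real, inner_smul_right, norm_smul, he, norm_norm]
    simp only [e, EuclideanSpace.inner_single_right, conj_trivial]
    nlinarith [norm_nonneg x]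
  have oC : IsOpen (cone m Real.pi) := isOpen_lt (by fun_prop) (by fun_prop)
  have zC : (0 : EuclideanSpace ℝ (Fin (m + 1))) ∈ (cone m Real.pi)ᶜ := by simp [cone]
  have dp : ∀ x ∈ Ω, 0 < infDist x Ωᶜ := fun x hx =>
    (ho.isClosed_compl.notMem_iff_infDist_pos hn).1 (not_not.2 hx)
  have core : ∀ u g, Adm p Ω u g → ∀ x ∈ Ω, ∀ c : ℝ, 0 ≤ c →
      c < u x / infDist x Ωᶜ ^ (1 - ((m + 1 : ℕ) : ℝ) / p) →
      lam p (cone m Real.pi) * .ofReal c ^ p ≤ ∫⁻ x, ‖g x‖ₑ ^ p := by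
    intro u g ⟨h1, h2, h3, h4⟩ x hx c c0 hc
    have d0 := dp x hx
    set d := infDist x Ωᶜ
    have D0 : 0 < d ^ (1 - ((m + 1 : ℕ) : ℝ) / p) := by positivity
    rw [lt_div_iff₀ D0] at hc
    obtain ⟨V, L, hV, v0, v1, v2⟩ := transfer (EuclideanSpace.basisFun (Fin (m + 1)) ℝ) hb h1 h4
      (h2.locallyIntegrable (by simpa using p1))
      (fun φ a b i => by simpa [EuclideanSpace.inner_single_right] using h3 φ a b i) p1
      (half_pos (sub_pos.2 hc)) d0 he fun r hr => sph ho hb he H hn hx hr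
    have ng : ∀ y, ‖gradient V y‖ₑ = ‖fderiv ℝ V y‖ₑ := fun y => by
      rw [gradient, LinearIsometryEquiv.enorm_map]
    have fin := (eLpNorm_lt_top_iff_lintegral_rpow_enorm_lt_top (by simpa using p0)
      ENNReal.ofReal_ne_top).1 h2.2
    rw [ENNReal.toReal_ofReal p0.le] at fin
    have adm : Adm p (cone m Real.pi) V (gradient V) := by
      refine ⟨hV.continuous, ⟨((InnerProductSpace.toDual ℝ _).symm.continuous.measurable.comp
        (measurable_fderiv ℝ V)).aestronglyMeasurable, ?_⟩, fun φ a b i => ?_, fun y hy => ?_⟩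
      · rw [eLpNorm_lt_top_iff_lintegral_rpow_enorm_lt_top (by simpa using p0) ENNReal.ofReal_ne_top,
          ENNReal.toReal_ofReal p0.le]
        simp only [ng]; exact v2.trans_lt fin
      · rw [weak_lip hV a b]
        congr 3; ext y
        rw [EuclideanSpace.inner_single_right]; simp
      · rw [hC y hy]; exact v0 _ (norm_nonneg _)
    have big : c * d ^ (1 - ((m + 1 : ℕ) : ℝ) / p) < V (d • e) := by linarith
    have mem : d • e ∈ cone m Real.pi := by
      simp [cone, e, norm_smul, abs_of_pos d0, d0]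
    have a1 := (oC.isClosed_compl.notMem_iff_infDist_pos ⟨0, zC⟩).1 (not_not.2 mem)
    have a2 : infDist (d • e) (cone m Real.pi)ᶜ ≤ d :=
      (infDist_le_dist_of_mem zC).trans (by simp [norm_smul, he, abs_of_pos d0])
    have l : lam p (cone m Real.pi) ≤ _ := iInf_le_of_le V (iInf_le_of_le (gradient V) (iInf₂_le adm
      fun k => by rw [k] at big; exact absurd big (not_lt.2 (by simp; positivity))))
    refine le_trans (mul_le_mul_right (ENNReal.rpow_le_rpow (le_iSup₂_of_le (d • e) mem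
      (ENNReal.ofReal_le_ofReal ?_)) p0.le) _) ((ENNReal.mul_le_of_le_div l).trans ?_)
    · rw [le_div_iff₀ (by positivity)]
      exact ((mul_le_mul_of_nonneg_left (Real.rpow_le_rpow a1.le a2 θ0) c0).trans big.le).trans
        (le_abs_self _)
    · simp only [ng]; exact v2
  refine le_iInf fun u => le_iInf fun g => le_iInf₂ fun hu h0 => ?_
  have fin := (eLpNorm_lt_top_iff_lintegral_rpow_enorm_lt_top (by simpa using p0)
    ENNReal.ofReal_ne_top).1 hu.2.1.2
  rw [ENNReal.toReal_ofReal p0.le] at fin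
  obtain ⟨y, hy⟩ := Function.ne_iff.1 h0
  have yΩ : y ∈ Ω := not_not.1 fun k => hy (hu.2.2.2 y k)
  have S0 : 0 < ⨆ x ∈ Ω, ENNReal.ofReal (|u x| / infDist x Ωᶜ ^ (1 - ((m + 1 : ℕ) : ℝ) / p)) :=
    lt_of_lt_of_le (ENNReal.ofReal_pos.2 (div_pos (abs_pos.2 hy) (Real.rpow_pos_of_pos (dp y yΩ) _)))
      (le_iSup₂_of_le y yΩ le_rfl)
  rw [ENNReal.le_div_iff_mul_le (Or.inl (ENNReal.rpow_pos_of_nonneg S0 p0.le).ne') (Or.inr fin.ne)]
  refine ENNReal.mul_le_of_forall_lt fun a ha b hb' => ?_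
  rw [← ENNReal.rpow_inv_lt_iff p0] at hb'
  have bt := hb'.ne_top
  simp only [lt_iSup_iff] at hb'
  obtain ⟨x, hx, hc⟩ := hb'
  rw [← ENNReal.ofReal_toReal bt, ENNReal.ofReal_lt_ofReal_iff_of_nonneg ENNReal.toReal_nonneg] at hc
  rw [← ENNReal.rpow_inv_rpow p0.ne' b, ← ENNReal.ofReal_toReal bt]
  refine (mul_le_mul_left ha.le _).trans ?_
  rcases abs_choice (u x) with k | k <;> rw [k] at hc
  · exact core u g hu x hx _ ENNReal.toReal_nonneg hc
  · simpa using core (-u) (-g) ⟨hu.1.neg, hu.2.1.neg, fun φ a b i => by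
      simp [integral_neg, hu.2.2.1 φ a b i], fun y hy => by simp [hu.2.2.2 y hy]⟩ x hx _
      ENNReal.toReal_nonneg hc

end Pool.Agent.Results.MP_f42450_an.SlitBound
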